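import Pool.Agent.K4W.StmtsW

/-! # K4W, row WLP: `lam` of a product of linear factors (helper76) -/

set_option autoImplicit false

open Polynomial

namespace Pool.Agent.K4W.H76

theorem ec_linear {K : Type} [Field K] (x : K) : ec (X - C x) 1 = x ∧
    ec (X - C x) 2 = 0 ∧ ec (X - C x) 3 = 0 ∧ ec (X - C x) 4 = 0 := by
  unfold ec
  simp only [Polynomial.coeff_reverse, Polynomial.natDegree_X_sub_C]
  have r1 : Polynomial.revAt 1 1 = 0 := by
    rw [Polynomial.revAt_le (le_refl 1)]
  have r2 : Polynomial.revAt 1 2 = 2 := by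
    rw [Polynomial.revAt_eq_self_of_lt (by norm_num)]
  have r3 : Polynomial.revAt 1 3 = 3 := by
    rw [Polynomial.revAt_eq_self_of_lt (by norm_num)]
  have r4 : Polynomial.revAt 1 4 = 4 := by
    rw [Polynomial.revAt_eq_self_of_lt (by norm_num)]
  rw [r1, r2, r3, r4]
  simp [Polynomial.coeff_X, Polynomial.coeff_C]

theorem wlp (h1 : WmuStmt) : WlpStmt := by
  intro K _ A B x n
  induction n with
  | zero =>
    rw [Finset.prod_range_zero, Finset.sum_range_zero]
    have h := h1 K A B 1 1 monic_one monic_one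
    rw [mul_one] at h
    have h' : lam A B (1 : K[X]) + 0 = lam A B (1 : K[X]) + lam A B (1 : K[X]) := by
      rw [add_zero]; exact h
    exact (add_left_cancel h').symm
  | succ n ih =>
    rw [Finset.prod_range_succ, Finset.sum_range_succ, h1 K A B _ _
      (Polynomial.monic_prod_of_monic _ _ (fun i _ => Polynomial.monic_X_sub_C _))
      (Polynomial.monic_X_sub_C _), ih]
    congr 1
    obtain ⟨e1, e2, e3, e4⟩ := ec_linear (x n)
    unfold lam
    rw [e1, e2, e3, e4]
    ring

end Pool.Agent.K4W.H76
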