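import Pool.Agent.K4W.StmtsW

/-! # K4W, row WML: the sum over the multiples of `P ^ k` (helper76) -/

set_option autoImplicit false

open Polynomial

namespace Pool.Agent.K4W.H76

theorem lam_one_of (h1 : WmuStmt) {K : Type} [Field K] (A B : K) : lam A B (1 : K[X]) = 0 := by
  have h := h1 K A B 1 1 monic_one monic_one
  rw [mul_one] at h
  have h' : lam A B (1 : K[X]) + 0 = lam A B (1 : K[X]) + lam A B (1 : K[X]) := by
    rw [add_zero]; exact h
  exact (add_left_cancel h').symm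

theorem chi_mul_of (h1 : WmuStmt) (p : ℕ) [Fact p.Prime] (A B : ZMod p) (g h : (ZMod p)[X])
    (hg : g.Monic) (hh : h.Monic) : chi p A B (g * h) = chi p A B g * chi p A B h := by
  unfold chi
  rw [h1 (ZMod p) A B g h hg hh, AddChar.map_add_eq_mul]

theorem chi_pow_of (h1 : WmuStmt) (p : ℕ) [Fact p.Prime] (A B : ZMod p) (g : (ZMod p)[X])
    (hg : g.Monic) (k : ℕ) : chi p A B (g ^ k) = chi p A B g ^ k := by
  induction k with
  | zero =>
    rw [pow_zero, pow_zero]
    unfold chi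
    rw [lam_one_of h1, AddChar.map_zero_eq_one]
  | succ k ih =>
    rw [pow_succ, pow_succ, chi_mul_of h1 p A B _ _ (hg.pow k) hg, ih]

theorem wml (h1 : WmuStmt) (h2 : WmnStmt) : WmlStmt := by
  intro p _ A B n e k P hP
  classical
  obtain ⟨hPM, -⟩ := Finset.mem_filter.mp hP
  obtain ⟨hPmon, hPdeg⟩ := (h2 p e P).mp hPM
  have hPk : (P ^ k).Monic := hPmon.pow k
  have hPkd : (P ^ k).natDegree = e * k := by rw [hPmon.natDegree_pow, hPdeg, mul_comm]
  split_ifs with hle
  · unfold an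
    rw [Finset.mul_sum]
    symm
    apply Finset.sum_nbij (fun h => P ^ k * h)
    · intro h hh
      obtain ⟨hm, hd⟩ := (h2 p _ h).mp hh
      refine Finset.mem_filter.mpr ⟨(h2 p n _).mpr ⟨hPk.mul hm, ?_⟩, dvd_mul_right _ _⟩
      rw [hPk.natDegree_mul hm, hPkd, hd]
      omega
    · intro a _ b _ hab
      exact mul_left_cancel₀ hPk.ne_zero hab
    · intro g hg
      rw [Finset.mem_coe, Finset.mem_filter] at hg
      obtain ⟨hgM, h, rfl⟩ := hg
      obtain ⟨hm, hd⟩ := (h2 p n _).mp hgM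
      have hhm : h.Monic := Polynomial.Monic.of_mul_monic_left hPk hm
      refine ⟨h, ?_, rfl⟩
      rw [Finset.mem_coe]
      refine (h2 p _ h).mpr ⟨hhm, ?_⟩
      rw [hPk.natDegree_mul hhm, hPkd] at hd
      omega
    · intro h hh
      obtain ⟨hm, -⟩ := (h2 p _ h).mp hh
      rw [chi_mul_of h1 p A B _ _ hPk hm, chi_pow_of h1 p A B P hPmon k]
  · apply Finset.sum_eq_zero
    intro g hg
    exfalso
    obtain ⟨hgM, hdvd⟩ := Finset.mem_filter.mp hg
    obtain ⟨hm, hd⟩ := (h2 p n _).mp hgM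
    have hdd := Polynomial.natDegree_le_of_dvd hdvd hm.ne_zero
    rw [hPkd, hd] at hdd
    exact hle hdd

end Pool.Agent.K4W.H76
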