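import Pool.Agent.K4W.StmtsW

/-! # K4W, row WMN: the monic polynomials of degree `n` (helper76) -/

set_option autoImplicit false

open Polynomial

namespace Pool.Agent.K4W.H76

theorem wmn : WmnStmt := by
  intro p _ n g
  classical
  unfold Mon
  rw [Finset.mem_image]
  constructor
  · rintro ⟨c, -, rfl⟩
    have hdeg : (∑ i : Fin n, C (c i) * X ^ (i : ℕ)).degree < (n : WithBot ℕ) :=
      Polynomial.degree_sum_fin_lt c
    refine ⟨Polynomial.monic_X_pow_add hdeg, ?_⟩
    have h1 : (X ^ n + ∑ i : Fin n, C (c i) * X ^ (i : ℕ)).degree = (n : WithBot ℕ) := by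
      rw [Polynomial.degree_add_eq_left_of_degree_lt]
      · exact Polynomial.degree_X_pow n
      · rw [Polynomial.degree_X_pow]; exact hdeg
    exact Polynomial.natDegree_eq_of_degree_eq_some h1
  · rintro ⟨hm, hd⟩
    refine ⟨fun i => g.coeff i, Finset.mem_univ _, ?_⟩
    conv_rhs => rw [hm.as_sum]
    rw [hd, Finset.sum_range]

end Pool.Agent.K4W.H76
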