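import Pool.Agent.K4W.StmtsW

/-! # K4W, row WMP: `lam` and a homomorphism of fields (helper76) -/

set_option autoImplicit false

open Polynomial

namespace Pool.Agent.K4W.H76

theorem ec_map {K K' : Type} [Field K] [Field K'] (φ : K →+* K') (g : K[X]) (i : ℕ) :
    ec (g.map φ) i = φ (ec g i) := by
  unfold ec
  rw [Polynomial.coeff_reverse, Polynomial.coeff_reverse, Polynomial.natDegree_map,
    Polynomial.coeff_map, map_mul, map_pow, map_neg, map_one]

theorem wmp : WmpStmt := by
  intro K K' _ _ φ A B g
  unfold lam
  simp only [ec_map, map_add, map_sub, map_mul, map_pow, map_ofNat]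

end Pool.Agent.K4W.H76
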