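import Pool.Agent.K4W.StmtsW

/-! # K4W, row WPW: power sums (helper76) -/

set_option autoImplicit false

namespace Pool.Agent.K4W.H76

theorem wpw_real (u C : ℝ) (hC : 0 ≤ C)
    (h : 6 * u ^ 3 ≤ 6 * C * u ^ 2 + 3 * (C ^ 2 + C) * u + (C ^ 3 + 3 * C ^ 2 + 2 * C)) :
    u ≤ 1 + (C + (C ^ 2 + C) / 2 + (C ^ 3 + 3 * C ^ 2 + 2 * C) / 6) := by
  by_contra hu
  push Not at hu
  have hM : 0 ≤ C + (C ^ 2 + C) / 2 + (C ^ 3 + 3 * C ^ 2 + 2 * C) / 6 := by positivity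
  have hu1 : 1 < u := by linarith
  have h1 : 3 * (C ^ 2 + C) * u ≤ 3 * (C ^ 2 + C) * u ^ 2 := by
    have : u ≤ u ^ 2 := by nlinarith
    exact mul_le_mul_of_nonneg_left this (by positivity)
  have h2 : (C ^ 3 + 3 * C ^ 2 + 2 * C) ≤ (C ^ 3 + 3 * C ^ 2 + 2 * C) * u ^ 2 := by
    have : 1 ≤ u ^ 2 := by nlinarith
    exact le_mul_of_one_le_right (by positivity) this
  have h3 : u ^ 2 * u ≤ u ^ 2 * (C + (C ^ 2 + C) / 2 + (C ^ 3 + 3 * C ^ 2 + 2 * C) / 6) := by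
    nlinarith
  have h4 : u ≤ (C + (C ^ 2 + C) / 2 + (C ^ 3 + 3 * C ^ 2 + 2 * C) / 6) :=
    le_of_mul_le_mul_left h3 (by positivity)
  linarith

theorem wpw_norm (y₁ y₂ y₃ : ℂ) (T C : ℝ) (hT : 0 < T) (hC : 0 ≤ C)
    (h1 : ‖y₁ + y₂ + y₃‖ ≤ C * T) (h2 : ‖y₁ ^ 2 + y₂ ^ 2 + y₃ ^ 2‖ ≤ C * T ^ 2)
    (h3 : ‖y₁ ^ 3 + y₂ ^ 3 + y₃ ^ 3‖ ≤ C * T ^ 3) :
    ‖y₁‖ / T ≤ 1 + (C + (C ^ 2 + C) / 2 + (C ^ 3 + 3 * C ^ 2 + 2 * C) / 6) := by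
  apply wpw_real _ C hC
  set P1 := y₁ + y₂ + y₃ with hP1
  set P2 := y₁ ^ 2 + y₂ ^ 2 + y₃ ^ 2 with hP2
  set P3 := y₁ ^ 3 + y₂ ^ 3 + y₃ ^ 3 with hP3
  have key : 6 * y₁ ^ 3 = 6 * P1 * y₁ ^ 2 - 3 * (P1 ^ 2 - P2) * y₁ +
      (P1 ^ 3 - 3 * P1 * P2 + 2 * P3) := by
    rw [hP1, hP2, hP3]; ring
  have n1 : ‖6 * P1 * y₁ ^ 2‖ = 6 * ‖P1‖ * ‖y₁‖ ^ 2 := by
    rw [norm_mul, norm_mul, norm_pow]; norm_num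
  have n2 : ‖3 * (P1 ^ 2 - P2) * y₁‖ ≤ 3 * (‖P1‖ ^ 2 + ‖P2‖) * ‖y₁‖ := by
    rw [norm_mul, norm_mul]
    have : ‖P1 ^ 2 - P2‖ ≤ ‖P1‖ ^ 2 + ‖P2‖ := (norm_sub_le _ _).trans (by rw [norm_pow])
    have h3' : ‖(3 : ℂ)‖ = 3 := by norm_num
    rw [h3']
    gcongr
  have n3 : ‖P1 ^ 3 - 3 * P1 * P2 + 2 * P3‖ ≤ ‖P1‖ ^ 3 + 3 * ‖P1‖ * ‖P2‖ + 2 * ‖P3‖ := by
    refine (norm_add_le _ _).trans ?_
    refine add_le_add ((norm_sub_le _ _).trans ?_) ?_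
    · rw [norm_pow, norm_mul, norm_mul]; norm_num
    · rw [norm_mul]; norm_num
  have n0 : 6 * ‖y₁‖ ^ 3 = ‖6 * y₁ ^ 3‖ := by rw [norm_mul, norm_pow]; norm_num
  have big : 6 * ‖y₁‖ ^ 3 ≤ 6 * ‖P1‖ * ‖y₁‖ ^ 2 + 3 * (‖P1‖ ^ 2 + ‖P2‖) * ‖y₁‖ +
      (‖P1‖ ^ 3 + 3 * ‖P1‖ * ‖P2‖ + 2 * ‖P3‖) := by
    rw [n0, key]
    refine (norm_add_le _ _).trans (add_le_add ((norm_sub_le _ _).trans ?_) n3)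
    rw [n1]
    exact add_le_add le_rfl n2
  have hP1n : 0 ≤ ‖P1‖ := norm_nonneg _
  have hP2n : 0 ≤ ‖P2‖ := norm_nonneg _
  have hP3n : 0 ≤ ‖P3‖ := norm_nonneg _
  have hy : 0 ≤ ‖y₁‖ := norm_nonneg _
  have e1 : 6 * ‖P1‖ * ‖y₁‖ ^ 2 ≤ 6 * (C * T) * ‖y₁‖ ^ 2 := by gcongr
  have e2 : 3 * (‖P1‖ ^ 2 + ‖P2‖) * ‖y₁‖ ≤ 3 * ((C * T) ^ 2 + C * T ^ 2) * ‖y₁‖ := by gcongr
  have e3 : ‖P1‖ ^ 3 + 3 * ‖P1‖ * ‖P2‖ + 2 * ‖P3‖ ≤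
      (C * T) ^ 3 + 3 * (C * T) * (C * T ^ 2) + 2 * (C * T ^ 3) := by gcongr
  have e4 : 6 * ‖y₁‖ ^ 3 ≤ 6 * (C * T) * ‖y₁‖ ^ 2 + 3 * ((C * T) ^ 2 + C * T ^ 2) * ‖y₁‖ +
      ((C * T) ^ 3 + 3 * (C * T) * (C * T ^ 2) + 2 * (C * T ^ 3)) := by linarith
  have hT3 : 0 < T ^ 3 := by positivity
  have e5 : 6 * (‖y₁‖ / T) ^ 3 = (6 * ‖y₁‖ ^ 3) / T ^ 3 := by
    field_simp
  have e6 : 6 * C * (‖y₁‖ / T) ^ 2 + 3 * (C ^ 2 + C) * (‖y₁‖ / T) +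
      (C ^ 3 + 3 * C ^ 2 + 2 * C) = (6 * (C * T) * ‖y₁‖ ^ 2 +
        3 * ((C * T) ^ 2 + C * T ^ 2) * ‖y₁‖ +
      ((C * T) ^ 3 + 3 * (C * T) * (C * T ^ 2) + 2 * (C * T ^ 3))) / T ^ 3 := by
    field_simp
  rw [e5, e6]
  exact div_le_div_of_nonneg_right e4 hT3.le

theorem wpw : WpwStmt := by
  intro z₁ z₂ z₃ R C hR hC h
  by_contra hz
  push Not at hz
  have hρ : 1 < ‖z₁‖ / R := by rw [one_lt_div hR]; exact hz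
  obtain ⟨m, hm⟩ := pow_unbounded_of_one_lt
    (1 + (C + (C ^ 2 + C) / 2 + (C ^ 3 + 3 * C ^ 2 + 2 * C) / 6)) hρ
  have hm1 : 1 ≤ m := by
    rcases Nat.eq_zero_or_pos m with h0 | h0
    · subst h0
      have : 0 ≤ C + (C ^ 2 + C) / 2 + (C ^ 3 + 3 * C ^ 2 + 2 * C) / 6 := by positivity
      simp only [pow_zero] at hm
      linarith
    · exact h0
  have hk := wpw_norm (z₁ ^ m) (z₂ ^ m) (z₃ ^ m) (R ^ m) C (by positivity) hC (h m hm1)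
    (by
      have := h (m * 2) (by omega)
      simpa only [pow_mul] using this)
    (by
      have := h (m * 3) (by omega)
      simpa only [pow_mul] using this)
  rw [norm_pow, ← div_pow] at hk
  linarith

end Pool.Agent.K4W.H76
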